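import Pool.Agent.K1H14.SE.Stm

/-!
# Project SE: conjugation by a norm one element normalizes the degree two part
-/

set_option autoImplicit false

namespace Pool.Agent.K1H72.SE

open Pool.Agent.K1H14.SD Pool.Agent.K1H14.SE
open scoped symmDiff

universe u

theorem card_sd {d : ℕ} (K L : Finset (Fin d)) :
    (K ∆ L).card + 2 * (K ∩ L).card = K.card + L.card := by
  have h1 : (K ∆ L).card = (K \ L).card + (L \ K).card := by
    rw [symmDiff_def, Finset.sup_eq_union, Finset.card_union_of_disjoint]
    exact disjoint_sdiff_sdiff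
  have h2 := Finset.card_sdiff_add_card_inter K L
  have h3 := Finset.card_sdiff_add_card_inter L K
  rw [Finset.inter_comm L K] at h3
  omega

variable {C : Type u} [Ring C] [Algebra ℂ C] {d : ℕ} {M : Finset (Fin d) → C} {st : C →ₗ[ℂ] C}

/-- the commutator of two monomials of degree two or `d` -/
theorem brk_mono (hM : FullCl M st) (K L : Finset (Fin d)) (hK : K.card = 2 ∨ K.card = d)
    (hL : L.card = 2 ∨ L.card = d) : M K * M L - M L * M K ∈ Lev M 2 := by
  have hd := hM.dim
  have hKd : K.card ≤ d := by simpa using K.card_le_univ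
  have hcm := hM.comm K L
  have hev : Even (K.card * L.card) := by
    rcases hK with h | h <;> rw [h]
    · exact (even_two).mul_right _
    · exact (Nat.even_iff.2 (by omega)).mul_right _
  rcases Nat.even_or_odd (K ∩ L).card with he | ho
  · rw [(hev.add he).neg_one_pow, one_smul] at hcm
    rw [hcm, sub_self]
    exact Submodule.zero_mem _
  · rw [(hev.add_odd ho).neg_one_pow, neg_smul, one_smul] at hcm
    have h5 : M L * M K = - (M K * M L) := by rw [hcm, neg_neg]
    obtain ⟨ε, -, hm⟩ := hM.mul K L
    rw [h5, sub_neg_eq_add, ← two_smul ℂ, hm, smul_smul]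
    have hc := card_sd K L
    have h6 : (K ∩ L).card = 1 := by
      have h7 : (K ∩ L).card ≤ K.card := Finset.card_le_card Finset.inter_subset_left
      have h8 : (K ∩ L).card ≤ L.card := Finset.card_le_card Finset.inter_subset_right
      obtain ⟨a, ha⟩ := ho
      rcases hK with h | h
      · omega
      · have h9 : K = Finset.univ := by
          rw [← Finset.card_eq_iff_eq_univ, h, Fintype.card_fin]
        exfalso
        rw [h9, Finset.univ_inter] at ha
        rcases hL with h' | h' <;> omega
    have h10 : K.card = 2 := by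
      rcases hK with h | h
      · exact h
      · exfalso
        have h9 : K = Finset.univ := by
          rw [← Finset.card_eq_iff_eq_univ, h, Fintype.card_fin]
        rw [h9, Finset.univ_inter] at h6
        rcases hL with h' | h' <;> omega
    have h11 : L.card = 2 := by
      rcases hL with h | h
      · exact h
      · exfalso
        have h9 : L = Finset.univ := by
          rw [← Finset.card_eq_iff_eq_univ, h, Fintype.card_fin]
        rw [h9, Finset.inter_univ] at h6
        omega
    exact Submodule.smul_mem _ _ (Submodule.subset_span ⟨K ∆ L, by omega, rfl⟩)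

theorem lev_sup : Lev M 2 ⊔ Lev M d =
    Submodule.span ℂ {x | ∃ K : Finset (Fin d), (K.card = 2 ∨ K.card = d) ∧ x = M K} := by
  unfold Lev
  rw [← Submodule.span_union]
  congr 1
  ext x
  constructor
  · rintro (⟨K, hK, rfl⟩ | ⟨K, hK, rfl⟩)
    · exact ⟨K, Or.inl hK, rfl⟩
    · exact ⟨K, Or.inr hK, rfl⟩
  · rintro ⟨K, hK | hK, rfl⟩
    · exact Or.inl ⟨K, hK, rfl⟩
    · exact Or.inr ⟨K, hK, rfl⟩

theorem brk (hM : FullCl M st) (u w : C) (hu : u ∈ Lev M 2 ⊔ Lev M d)
    (hw : w ∈ Lev M 2 ⊔ Lev M d) : u * w - w * u ∈ Lev M 2 := by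
  rw [lev_sup] at hu hw
  induction hu using Submodule.span_induction with
  | mem u hu =>
    obtain ⟨K, hK, rfl⟩ := hu
    induction hw using Submodule.span_induction with
    | mem w hw =>
      obtain ⟨L, hL, rfl⟩ := hw
      exact brk_mono hM K L hK hL
    | zero => simp
    | add a b _ _ ha hb =>
      have : M K * (a + b) - (a + b) * M K = (M K * a - a * M K) + (M K * b - b * M K) := by
        noncomm_ring
      rw [this]
      exact Submodule.add_mem _ ha hb
    | smul t a _ ha =>
      rw [mul_smul_comm, smul_mul_assoc, ← smul_sub]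
      exact Submodule.smul_mem _ _ ha
  | zero => simp
  | add a b _ _ ha hb =>
    have : (a + b) * w - w * (a + b) = (a * w - w * a) + (b * w - w * b) := by
      noncomm_ring
    rw [this]
    exact Submodule.add_mem _ ha hb
  | smul t a _ ha =>
    rw [mul_smul_comm, smul_mul_assoc, ← smul_sub]
    exact Submodule.smul_mem _ _ ha

/-- a monomial of degree two is a multiple of a commutator -/
theorem mono_brk (hM : FullCl M st) (hd : 6 ≤ d) (K : Finset (Fin d)) (hK : K.card = 2) :
    ∃ (A B : Finset (Fin d)) (t : ℂ), A.card = 2 ∧ B.card = 2 ∧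
      M K = t • (M A * M B - M B * M A) := by
  obtain ⟨i, j, hij, rfl⟩ := Finset.card_eq_two.1 hK
  obtain ⟨k, hk⟩ : ∃ k : Fin d, k ∉ ({i, j} : Finset (Fin d)) := by
    by_contra hcon
    push Not at hcon
    have h1 : ({i, j} : Finset (Fin d)) = Finset.univ := Finset.eq_univ_iff_forall.2 hcon
    have h2 := congrArg Finset.card h1
    rw [hK, Finset.card_univ, Fintype.card_fin] at h2
    omega
  have hki : k ≠ i := fun h => hk (by simp [h])
  have hkj : k ≠ j := fun h => hk (by simp [h])
  have h3 : ({i, k} : Finset (Fin d)) ∆ {k, j} = {i, j} := by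
    ext a
    simp only [Finset.mem_symmDiff, Finset.mem_insert, Finset.mem_singleton]
    constructor
    · rintro (⟨h | h, h'⟩ | ⟨h | h, h'⟩)
      · exact Or.inl h
      · exact absurd (Or.inl h) h'
      · exact absurd (Or.inr h) h'
      · exact Or.inr h
    · rintro (rfl | rfl)
      · exact Or.inl ⟨Or.inl rfl, by rintro (h | h); exacts [hki h.symm, hij h]⟩
      · exact Or.inr ⟨Or.inr rfl, by rintro (h | h); exacts [hij h.symm, hkj h.symm]⟩
  have hA : ({i, k} : Finset (Fin d)).card = 2 := Finset.card_pair hki.symm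
  have hB : ({k, j} : Finset (Fin d)).card = 2 := Finset.card_pair hkj
  obtain ⟨ε, hε, hm⟩ := hM.mul {i, k} {k, j}
  have hcm := hM.comm {i, k} {k, j}
  have hc := card_sd ({i, k} : Finset (Fin d)) {k, j}
  rw [h3, hK, hA, hB] at hc
  have h4 : (({i, k} : Finset (Fin d)) ∩ {k, j}).card = 1 := by omega
  rw [hA, hB, h4] at hcm
  norm_num at hcm
  have h5 : M {k, j} * M {i, k} = - (M {i, k} * M {k, j}) := by rw [hcm, neg_neg]
  refine ⟨{i, k}, {k, j}, ε / 2, hA, hB, ?_⟩
  rw [h5, sub_neg_eq_add, ← two_smul ℂ, hm, h3, smul_smul, smul_smul]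
  have h6 : ε / 2 * 2 * ε = 1 := by
    rcases hε with rfl | rfl <;> norm_num
  have h7 : ε / 2 * (2 * ε) = 1 := by rw [← mul_assoc]; exact h6
  first
    | rw [h6, one_smul]
    | rw [h7, one_smul]

theorem conj_lev (hM : FullCl M st) (hd : 6 ≤ d) (N : Submodule ℂ C) (p q : C) (hqp : q * p = 1)
    (h2 : ∀ K : Finset (Fin d), K.card = 2 → M K ∈ N)
    (hN : ∀ x ∈ N, x ∈ Lev M 2 ⊔ Lev M d) (hpq : ∀ x ∈ N, p * x * q ∈ N) :
    ∀ x ∈ Lev M 2, p * x * q ∈ Lev M 2 := by
  intro x hx
  induction hx using Submodule.span_induction with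
  | mem x hx =>
    obtain ⟨K, hK, rfl⟩ := hx
    obtain ⟨A, B, t, hA, hB, h⟩ := mono_brk hM hd K hK
    have h3 : p * M K * q = t • ((p * M A * q) * (p * M B * q) - (p * M B * q) * (p * M A * q)) := by
      rw [h, mul_smul_comm, smul_mul_assoc]
      congr 1
      have e1 : (p * M A * q) * (p * M B * q) = p * (M A * M B) * q := by
        calc (p * M A * q) * (p * M B * q) = p * M A * (q * p) * M B * q := by noncomm_ring
          _ = p * (M A * M B) * q := by rw [hqp]; noncomm_ring
      have e2 : (p * M B * q) * (p * M A * q) = p * (M B * M A) * q := by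
        calc (p * M B * q) * (p * M A * q) = p * M B * (q * p) * M A * q := by noncomm_ring
          _ = p * (M B * M A) * q := by rw [hqp]; noncomm_ring
      rw [e1, e2]
      noncomm_ring
    rw [h3]
    exact Submodule.smul_mem _ _ (brk hM _ _ (hN _ (hpq _ (h2 A hA))) (hN _ (hpq _ (h2 B hB))))
  | zero => simp
  | add a b _ _ ha hb =>
    rw [mul_add, add_mul]
    exact Submodule.add_mem _ ha hb
  | smul t a _ ha =>
    rw [mul_smul_comm, smul_mul_assoc]
    exact Submodule.smul_mem _ _ ha

theorem t_NRM : Pool.Agent.K1H14.SE.S_NRM.{u} := by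
  intro C _ _ d M st N y hM hd _ hy1 hy2 h2 hN h3 h4
  exact ⟨conj_lev hM hd N y (st y) hy1 h2 hN h3, conj_lev hM hd N (st y) y hy2 h2 hN h4⟩

end Pool.Agent.K1H72.SE
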